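import Pool.Agent.Lib.MP_f406e2_lc.Assemble
import Pool.Agent.Lib.MP_f406e2_lc.BX1
import Pool.Agent.Lib.MP_f406e2_lc.BX2
import Pool.Agent.Lib.MP_f406e2_lc.Final
import Pool.Agent.Lib.MP_f406e2_lc.Val

open Pool.Agent.Lib.MP_f406e2_lc
open scoped Matrix

namespace Pool.Agent.Results.MP_f406e2_lc.BorelEvenDivision

/-- The unit sphere of `ℝ³`. -/
def unitSphere : Set (Fin 3 → ℝ) := {x | x ⬝ᵥ x = 1}

/-- `S²` is `m`-divisible using rotations with Borel pieces: it is the union of `m` pairwise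
disjoint Borel sets, any two of which are congruent by a rotation. -/
def BorelDivisible (m : ℕ) : Prop :=
  ∃ S : Fin m → Set (Fin 3 → ℝ),
    (∀ i, @MeasurableSet (Fin 3 → ℝ) (borel (Fin 3 → ℝ)) (S i)) ∧
    (⋃ i, S i) = unitSphere ∧
    Pairwise (Function.onFun Disjoint S) ∧
    ∀ i j, ∃ g ∈ Matrix.specialOrthogonalGroup (Fin 3) ℝ, (fun x => g *ᵥ x) '' S i = S j

/-- For every even `m ≥ 6` the sphere `S²` is the union of `m` pairwise disjoint Borel sets any two
of which are congruent by a rotation. -/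
theorem result (m : ℕ) (hm : Even m) (h6 : 6 ≤ m) : BorelDivisible m := by
  obtain ⟨k, rfl⟩ := hm
  have hk : 3 ≤ k := by omega
  obtain ⟨p, hp, hpk, hp4⟩ := Nat.exists_prime_gt_modEq_one (k := 4) (2 * k) (by norm_num)
  have : Fact p.Prime := ⟨hp⟩
  have hp3 : p % 4 ≠ 3 := by
    have : p % 4 = 1 := hp4
    omega
  obtain ⟨a, b, hab⟩ := Nat.Prime.sq_add_sq hp3
  subst hab
  have hnsq : ∀ c : ℕ, ¬ (c ^ 2).Prime := fun c => Nat.Prime.not_prime_pow le_rfl
  have ha : 0 < a := by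
    rcases Nat.eq_zero_or_pos a with h | h
    · subst h; exact absurd hp (by simpa using hnsq b)
    · exact h
  have hb : 0 < b := by
    rcases Nat.eq_zero_or_pos b with h | h
    · subst h; exact absurd hp (by simpa using hnsq a)
    · exact h
  have hd : ¬ (a ^ 2 + b ^ 2) ∣ 2 * k := fun h =>
    absurd (Nat.le_of_dvd (by omega) h) (by omega)
  obtain ⟨H⟩ := exists_height k a b hk ha hb hp hd
  obtain ⟨GC, Q, C, h1, h2, h3, h4, h5, h6', h7, h8, h9, h10⟩ := exists_circles k a b hk ha hb H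
  obtain ⟨AX, hAX, hAXe⟩ := borel_construct k a b hk ha hb C
  obtain ⟨A, hA, hAS, hAe⟩ := assemble k a b hk ha H GC Q h1 h2 h3 h4 h5 h6' h7 h8 h9 AX hAX
    (fun x hx hx' => by
      obtain ⟨d, hd'⟩ := h10 x hx hx'
      exact hAXe d x hd')
  obtain ⟨S, s1, s2, s3, s4⟩ := final k a b (by omega) ha A hA hAS hAe
  have hkk : 2 * k = k + k := by ring
  have hB : (inferInstance : MeasurableSpace (Fin 3 → ℝ)) = borel (Fin 3 → ℝ) :=
    BorelSpace.measurable_eq
  rw [← hkk]
  refine ⟨S, fun i => ?_, s2, s3, s4⟩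
  have := s1 i
  rw [← hB]
  exact this

end Pool.Agent.Results.MP_f406e2_lc.BorelEvenDivision
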