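import Pool.Agent.Lib.MP_f406e2_lc_OC.FinalAll

open scoped Matrix

namespace Pool.Agent.Results.MP_f406e2_lc.BorelOddComposite

/-- The unit sphere of `ℝ³`. -/
def unitSphere : Set (Fin 3 → ℝ) := {x | x ⬝ᵥ x = 1}

/-- `S²` is `m`-divisible using rotations with Borel pieces: it is the union of `m` pairwise
disjoint Borel sets, any two of which are congruent by a rotation. -/
def BorelDivisible (m : ℕ) : Prop :=
  ∃ S : Fin m → Set (Fin 3 → ℝ),
    (∀ i, @MeasurableSet (Fin 3 → ℝ) (borel (Fin 3 → ℝ)) (S i)) ∧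
    (⋃ i, S i) = unitSphere ∧
    Pairwise (Function.onFun Disjoint S) ∧
    ∀ i j, ∃ g ∈ Matrix.specialOrthogonalGroup (Fin 3) ℝ, (fun x => g *ᵥ x) '' S i = S j

/-- For every odd composite `m` the sphere `S²` is the union of `m` pairwise disjoint Borel
sets any two of which are congruent by a rotation. -/
theorem result (m : ℕ) (hodd : Odd m) (hcomp : ¬ m.Prime) (h1 : 1 < m) : BorelDivisible m :=
  Pool.Agent.Lib.MP_f406e2_lc_OC.final_all m hodd hcomp h1

end Pool.Agent.Results.MP_f406e2_lc.BorelOddComposite
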