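import Pool.Agent.Lib.MP_f406e2_lc_Q5.Final

open MeasureTheory Matrix
open Pool.Agent.MP_f406e2_lc_Q5
open Pool.Agent.MP_f406e2_lc_QD (E3 S2 O3 nu mat mp nu_null mat_mem mat_mulVec smul_coe)

namespace Pool.Agent.Results.MP_f406e2_lc.LebesgueFive

/-- The unit sphere of the Euclidean space `ℝ³`. -/
abbrev Sphere : Type := Metric.sphere (0 : EuclideanSpace ℝ (Fin 3)) 1

/-- The surface measure of the unit sphere. -/
noncomputable abbrev surface : Measure Sphere :=
  (volume : Measure (EuclideanSpace ℝ (Fin 3))).toSphere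

/-- `S²` is `m`-divisible using rotations with Lebesgue measurable pieces: it is partitioned into
`m` Lebesgue measurable sets, any two of which are congruent by a rotation. -/
def LebesgueDivisible (m : ℕ) : Prop :=
  ∃ S : Fin m → Set Sphere, (∀ i, NullMeasurableSet (S i) surface) ∧
    (∀ x, ∃! i, x ∈ S i) ∧
    ∀ i j, ∃ g ∈ Matrix.specialOrthogonalGroup (Fin 3) ℝ,
      ∀ x : Sphere, x ∈ S j ↔ ∃ y ∈ S i, x.1.ofLp = g *ᵥ y.1.ofLp

/-- **The sphere `S²` is the union of five pairwise disjoint Lebesgue measurable sets any two of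
which are congruent by a rotation.** -/
theorem result : LebesgueDivisible 5 := by
  obtain ⟨A, hA, hx⟩ := main
  have hnull : ∀ s : Set S2, NullMeasurableSet s nu → NullMeasurableSet s surface := by
    intro s hs
    obtain ⟨t, ht, hst⟩ := hs
    refine ⟨t, ht, ?_⟩
    have h1 : surface {x | ¬ (x ∈ s ↔ x ∈ t)} = 0 := by
      rw [← nu_null]
      have h2 : ∀ᵐ x ∂nu, (x ∈ s ↔ x ∈ t) := by
        filter_upwards [hst] with x hx
        exact iff_of_eq hx
      exact ae_iff.1 h2
    have h3 : ∀ᵐ x ∂surface, (x ∈ s ↔ x ∈ t) := ae_iff.2 h1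
    filter_upwards [h3] with x hx
    exact propext hx
  refine ⟨fun i => {x | (gam i)⁻¹ • x ∈ A}, fun i => ?_, fun x => hx x, fun i j => ?_⟩
  · apply hnull
    exact hA.preimage (mp (gam i)⁻¹).quasiMeasurePreserving
  · have hg : gam j * (gam i)⁻¹ ∈ Gam := Gam_mul (Gam_gam j) (Gam_inv (Gam_gam i))
    refine ⟨mat (gam j * (gam i)⁻¹), mat_mem _ (Gam_det hg), fun x => ?_⟩
    constructor
    · intro hx
      refine ⟨(gam j * (gam i)⁻¹)⁻¹ • x, ?_, ?_⟩
      · change (gam i)⁻¹ • (gam j * (gam i)⁻¹)⁻¹ • x ∈ A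
        rw [_root_.mul_inv_rev, inv_inv, mul_smul, inv_smul_smul]
        exact hx
      · have h1 : (gam j * (gam i)⁻¹) • (gam j * (gam i)⁻¹)⁻¹ • x = x := smul_inv_smul _ _
        rw [mat_mulVec, ← smul_coe, h1]
    · rintro ⟨y, hy, hxy⟩
      have h1 : x = (gam j * (gam i)⁻¹) • y := by
        apply Subtype.ext
        rw [smul_coe]
        apply WithLp.ofLp_injective
        rw [hxy, mat_mulVec]
      change (gam j)⁻¹ • x ∈ A
      rw [h1, mul_smul, inv_smul_smul]
      exact hy

end Pool.Agent.Results.MP_f406e2_lc.LebesgueFive
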